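import Pool.Agent.H85.LK.Targets

/-!
# MP_8f7db2_an: the field is a good embedding (DIF)
-/

set_option autoImplicit false

open MeasureTheory Metric Set ProbabilityTheory

namespace Pool.Agent.H51.LK

open Pool.Agent.H85.LK

theorem meas_inner {n : ℕ} (u : E n) : Measurable fun c : E n => (inner ℝ c u : ℝ) :=
  (continuous_id.inner continuous_const).measurable

theorem meas_GG {b l : ℝ} (hm : Measurable (chi b l)) {n : ℕ} (w : E n) :
    Measurable fun c : E n => GG b l c w :=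
  (hm.comp ((meas_inner w).div_const _)).const_mul _

theorem integrable_mul {b l M : ℝ} (hm : Measurable (chi b l)) (h0 : ∀ z, 0 ≤ chi b l z)
    (hM : ∀ z, chi b l z ≤ M) {n : ℕ} (w w' : E n) :
    Integrable (fun c : E n => GG b l c w * GG b l c w') (stdGaussian (E n)) := by
  refine Integrable.of_bound ((meas_GG hm w).mul (meas_GG hm w')).aestronglyMeasurable
    ((‖w‖ * M) * (‖w'‖ * M)) (Filter.Eventually.of_forall fun c => ?_)
  have h1 : ∀ w : E n, 0 ≤ GG b l c w := fun w => mul_nonneg (norm_nonneg _) (h0 _)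
  have h2 : ∀ w : E n, GG b l c w ≤ ‖w‖ * M := fun w =>
    mul_le_mul_of_nonneg_left (hM _) (norm_nonneg _)
  rw [Real.norm_eq_abs, abs_of_nonneg (mul_nonneg (h1 w) (h1 w'))]
  exact mul_le_mul (h2 w) (h2 w') (h1 w') ((h1 w).trans (h2 w))

/-- integrals of functions of two inner products -/
theorem int_two (hGV : T_GV) {n : ℕ} (u u' : E n) (hu : ‖u‖ = 1) (hu' : ‖u'‖ = 1)
    (F : ℝ × ℝ → ℝ) (hF : Measurable F) :
    ∫ c, F ((inner ℝ c u : ℝ), (inner ℝ c u' : ℝ)) ∂(stdGaussian (E n)) =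
    ∫ p : ℝ × ℝ, F (p.1, inner ℝ u u' * p.1 + Real.sqrt (1 - (inner ℝ u u' : ℝ) ^ 2) * p.2)
      ∂((gaussianReal 0 1).prod (gaussianReal 0 1)) := by
  have h1 : ∫ q, F q ∂((stdGaussian (E n)).map
      (fun c => ((inner ℝ c u : ℝ), (inner ℝ c u' : ℝ)))) =
      ∫ c, F ((inner ℝ c u : ℝ), (inner ℝ c u' : ℝ)) ∂(stdGaussian (E n)) :=
    integral_map ((meas_inner u).prodMk (meas_inner u')).aemeasurable hF.aestronglyMeasurable
  rw [← h1, hGV n u u' hu hu']
  refine integral_map ?_ hF.aestronglyMeasurable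
  refine Measurable.aemeasurable ?_
  exact measurable_fst.prodMk ((measurable_fst.const_mul _).add (measurable_snd.const_mul _))

theorem int_sq (hGV : T_GV) {b l : ℝ} (hm : Measurable (chi b l)) {n : ℕ} (u : E n)
    (hu : ‖u‖ = 1) : ∫ c, chi b l (inner ℝ c u) ^ 2 ∂(stdGaussian (E n)) = M2 b l := by
  have h1 := int_two hGV u u hu hu (fun q => chi b l q.1 ^ 2) ((hm.comp measurable_fst).pow_const 2)
  simp only at h1
  rw [h1]
  have h2 : ((gaussianReal 0 1).prod (gaussianReal 0 1)).map Prod.fst = gaussianReal 0 1 :=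
    measurePreserving_fst.map_eq
  have h3 : ∫ z, chi b l z ^ 2 ∂(((gaussianReal 0 1).prod (gaussianReal 0 1)).map Prod.fst) =
      ∫ p : ℝ × ℝ, chi b l p.1 ^ 2 ∂((gaussianReal 0 1).prod (gaussianReal 0 1)) :=
    integral_map measurable_fst.aemeasurable (hm.pow_const 2).aestronglyMeasurable
  rw [h2] at h3
  exact h3.symm

theorem GG_eq {b l : ℝ} {n : ℕ} (c w : E n) : GG b l c w = ‖w‖ * chi b l (inner ℝ c (‖w‖⁻¹ • w)) := by
  unfold GG
  rw [inner_smul_right, div_eq_inv_mul]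

theorem GG_sq (hGV : T_GV) {b l : ℝ} (hm : Measurable (chi b l)) {n : ℕ} (w : E n) :
    ∫ c, GG b l c w * GG b l c w ∂(stdGaussian (E n)) = M2 b l * ‖w‖ ^ 2 := by
  by_cases h : w = 0
  · subst h
    simp [GG]
  · have hu : ‖‖w‖⁻¹ • w‖ = 1 := by
      rw [norm_smul, norm_inv, norm_norm, inv_mul_cancel₀ (norm_ne_zero_iff.2 h)]
    have h1 : (fun c => GG b l c w * GG b l c w) =
        fun c => ‖w‖ ^ 2 * chi b l (inner ℝ c (‖w‖⁻¹ • w)) ^ 2 := by
      funext c
      rw [GG_eq]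
      ring
    rw [h1, integral_const_mul, int_sq hGV hm _ hu, mul_comm]

theorem GG_cross (hGV : T_GV) (hCOV : T_COV) {b l : ℝ} (hb : 0 < b) (hl : 0 < l)
    (hM : M2 b l ≤ DD b l) (hm : Measurable (chi b l)) {n : ℕ} (w w' : E n) :
    M2 b l * (‖w‖ * ‖w'‖) - DD b l * (‖w‖ * ‖w'‖ - inner ℝ w w') ≤
      ∫ c, GG b l c w * GG b l c w' ∂(stdGaussian (E n)) := by
  by_cases h : w = 0
  · subst h
    simp [GG]
  by_cases h' : w' = 0
  · subst h'
    simp [GG]
  have hw : 0 < ‖w‖ := norm_pos_iff.2 h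
  have hw' : 0 < ‖w'‖ := norm_pos_iff.2 h'
  have hu : ‖‖w‖⁻¹ • w‖ = 1 := by
    rw [norm_smul, norm_inv, norm_norm, inv_mul_cancel₀ hw.ne']
  have hu' : ‖‖w'‖⁻¹ • w'‖ = 1 := by
    rw [norm_smul, norm_inv, norm_norm, inv_mul_cancel₀ hw'.ne']
  obtain ⟨u, hud⟩ : ∃ u, u = ‖w‖⁻¹ • w := ⟨_, rfl⟩
  obtain ⟨u', hud'⟩ : ∃ u', u' = ‖w'‖⁻¹ • w' := ⟨_, rfl⟩
  rw [← hud] at hu
  rw [← hud'] at hu'
  have hk := abs_le.1 (abs_real_inner_le_norm u u')
  rw [hu, hu', one_mul] at hk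
  have hκ : ‖w‖ * ‖w'‖ * inner ℝ u u' = inner ℝ w w' := by
    rw [hud, hud', inner_smul_left, inner_smul_right]
    simp only [conj_trivial]
    field_simp
  have h1 : (fun c => GG b l c w * GG b l c w') =
      fun c => (‖w‖ * ‖w'‖) * (chi b l (inner ℝ c u) * chi b l (inner ℝ c u')) := by
    funext c
    rw [GG_eq, GG_eq c w', hud, hud']
    ring
  have h2 := int_two hGV u u' hu hu' (fun q => chi b l q.1 * chi b l q.2)
    ((hm.comp measurable_fst).mul (hm.comp measurable_snd))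
  simp only at h2
  have h3 := hCOV b l (inner ℝ u u') hb hl hM hk.1 hk.2
  rw [h1, integral_const_mul, h2]
  calc M2 b l * (‖w‖ * ‖w'‖) - DD b l * (‖w‖ * ‖w'‖ - inner ℝ w w')
      = (‖w‖ * ‖w'‖) * (M2 b l - DD b l * (1 - inner ℝ u u')) := by
        rw [← hκ]
        ring
    _ ≤ _ := mul_le_mul_of_nonneg_left h3 (by positivity)

theorem pf_DIF (hGV : T_GV) (hCOV : T_COV) (hCHP : T_CHP) : T_DIF := by
  intro n b l w w' hb hl hM
  obtain ⟨hm, -, h0, -, ⟨M, hMb⟩, -⟩ := hCHP b l hb hl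
  have hI : ∀ w w' : E n, Integrable (fun c : E n => GG b l c w * GG b l c w')
      (stdGaussian (E n)) := integrable_mul hm h0 (fun z => (hMb z).1)
  have h1 : ∫ c, (GG b l c w - GG b l c w') ^ 2 ∂(stdGaussian (E n)) =
      ∫ c, GG b l c w * GG b l c w ∂(stdGaussian (E n)) -
      2 * ∫ c, GG b l c w * GG b l c w' ∂(stdGaussian (E n)) +
      ∫ c, GG b l c w' * GG b l c w' ∂(stdGaussian (E n)) := by
    have e1 : Integrable (fun c : E n => GG b l c w * GG b l c w - 2 * (GG b l c w * GG b l c w'))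
        (stdGaussian (E n)) := (hI w w).sub ((hI w w').const_mul 2)
    rw [← integral_const_mul, ← integral_sub (hI w w) ((hI w w').const_mul 2),
      ← integral_add e1 (hI w' w')]
    congr 1
    funext c
    ring
  have h2 := GG_cross hGV hCOV hb hl hM hm w w'
  have h3 : ‖w - w'‖ ^ 2 = ‖w‖ ^ 2 - 2 * inner ℝ w w' + ‖w'‖ ^ 2 := norm_sub_sq_real w w'
  rw [h1, GG_sq hGV hm, GG_sq hGV hm, h3]
  nlinarith [h2]

end Pool.Agent.H51.LK
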